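import Pool.Agent.Lib.TGB_h66.PDisc
import Pool.Agent.Lib.TGB_h66.PDer
import Pool.Agent.Lib.TGL_h17.Nfd
import Pool.Agent.Lib.TGB_h34.Row32
import Pool.Agent.Lib.ALLZO.Z2b

/-!
# TANK G, TRACK L: rows NR, 3.1, 3.5: `p`-coordinates over a limit frame

`monos B` is the monoid of the monomials of value `≥ 0` of the limit frame `B`; `B.Coord p A` says
that the `B.R ≤ A` has `p`-coordinates with denominators in `monos B`.
-/

set_option autoImplicit false

open Polynomial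

namespace Pool.Agent.TGL66

open Pool.Agent.TAO (OVal VPos Ctx0)
open Pool.Agent.ALLO (locv icl ICl decP)
open Pool.Agent.LU1 (FracIs)
open Pool.Agent.TGL (LF mon)
open Pool.Agent.TGBh66 (invS mem_invS le_invS invS_mono PC Nrm isIntegral_mono DER PR)
open Pool.Agent.TGBh34 (isFr_of_LF)
open Pool.Agent.ALLZO (GoodBasis NRing)

universe u w

variable {k Ω : Type u} [Field k] [Field Ω] [Algebra k Ω]
  {𝕂 : Type w} [Field 𝕂] [LinearOrder 𝕂] [IsStrictOrderedRing 𝕂] {v : OVal 𝕂 Ω} {r D n : ℕ}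

theorem χ_zero (B : LF k v r D) : B.χ 0 = 1 := (isFr_of_LF B).mon.zero

theorem χ_neg_mul (B : LF k v r D) {γ : 𝕂} (hγ : γ ∈ B.Γ) : B.χ (-γ) * B.χ γ = 1 := by
  rw [← B.χ_add _ (B.Γ.neg_mem hγ) _ hγ, neg_add_cancel, χ_zero]

/-- The monomials of value `≥ 0`. -/
def monos (B : LF k v r D) : Submonoid Ω where
  carrier := {x | ∃ γ ∈ B.Γ, 0 ≤ γ ∧ x = B.χ γ}
  mul_mem' := by
    rintro _ _ ⟨γ, hγ, h0, rfl⟩ ⟨δ, hδ, h1, rfl⟩
    exact ⟨γ + δ, B.Γ.add_mem hγ hδ, add_nonneg h0 h1, (B.χ_add γ hγ δ hδ).symm⟩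
  one_mem' := ⟨0, B.Γ.zero_mem, le_rfl, (χ_zero B).symm⟩

theorem χ_mem_monos (B : LF k v r D) {γ : 𝕂} (hγ : γ ∈ B.Γ) (h0 : 0 ≤ γ) : B.χ γ ∈ monos B :=
  ⟨γ, hγ, h0, rfl⟩

theorem monos_ne (B : LF k v r D) : ∀ x ∈ monos B, x ≠ 0 := by
  rintro _ ⟨γ, hγ, -, rfl⟩
  exact B.χ_ne γ hγ

theorem monos_mem (B : LF k v r D) : ∀ x ∈ monos B, x ∈ B.R := by
  rintro _ ⟨γ, hγ, h0, rfl⟩
  exact B.χ_mem γ hγ h0

theorem inX_iff (B : LF k v r D) {A : Subalgebra k Ω} (hA : B.R ≤ A) {f : Ω} :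
    B.InX A f ↔ f ∈ invS A (monos B) := by
  constructor
  · rintro ⟨γ, hγ, hf⟩
    rcases le_total 0 γ with h0 | h0
    · exact ⟨B.χ γ, ⟨γ, hγ, h0, rfl⟩, hA (B.χ_mem γ hγ h0), hf⟩
    · have h1 : B.χ (-γ) ∈ A := hA (B.χ_mem _ (B.Γ.neg_mem hγ) (by linarith))
      refine le_invS ?_
      have h2 : f = B.χ (-γ) * (B.χ γ * f) := by rw [← mul_assoc, χ_neg_mul B hγ, one_mul]
      rw [h2]
      exact A.mul_mem h1 hf
  · rintro ⟨_, ⟨γ, hγ, h0, rfl⟩, -, hf⟩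
    exact ⟨γ, hγ, hf⟩

theorem coord_iff (B : LF k v r D) {p : ℕ} {A : Subalgebra k Ω} (hA : B.R ≤ A) :
    B.Coord p A ↔ ∀ u : Fin r → 𝕂, GoodBasis B.Γ ∅ u →
      PC p A (monos B) (mon (p := p) (fun i => B.χ (u i)) B.y) := by
  constructor
  · intro h u hu a ha
    obtain ⟨c, hc, e⟩ := h u hu a ha
    exact ⟨c, fun μ => (inX_iff B hA).1 (hc μ), e⟩
  · intro h u hu a ha
    obtain ⟨c, hc, e⟩ := h u hu a ha
    exact ⟨c, fun μ => (inX_iff B hA).2 (hc μ), e⟩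

/-- `χ` of any element of `Γ` is in `R[1/χ]`. -/
theorem χ_mem_invS (B : LF k v r D) {γ : 𝕂} (hγ : γ ∈ B.Γ) : B.χ γ ∈ invS B.R (monos B) := by
  rw [← inX_iff B le_rfl]
  exact ⟨-γ, B.Γ.neg_mem hγ, by rw [χ_neg_mul B hγ]; exact B.R.one_mem⟩

theorem mon_mem (B : LF k v r D) {p : ℕ} {u : Fin r → 𝕂} (hu : ∀ i, u i ∈ B.Γ)
    (hu0 : ∀ i, 0 ≤ u i) (μ : (Fin r → Fin p) × (Fin D → Fin p)) :
    mon (p := p) (fun i => B.χ (u i)) B.y μ ∈ B.R :=
  B.R.mul_mem (B.R.prod_mem fun i _ => B.R.pow_mem (B.χ_mem _ (hu i) (hu0 i)) _)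
    (B.R.prod_mem fun j _ => B.R.pow_mem (B.y_mem j) _)

theorem prod_zpow_sum {F : Type*} [Field F] {x : F} (hx : x ≠ 0) {ι : Type*} (s : Finset ι)
    (f : ι → ℤ) : ∏ i ∈ s, x ^ f i = x ^ ∑ i ∈ s, f i := by
  classical
  induction s using Finset.induction_on with
  | empty => simp
  | insert i s hi ih => rw [Finset.prod_insert hi, Finset.sum_insert hi, zpow_add₀ hx, ih]

/-- **`p`-coordinates of the ring of a limit frame.** -/
theorem coordB {p : ℕ} [hp : Fact p.Prime] [CharP Ω p] (hk : ∀ c : k, ∃ d : k, d ^ p = c)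
    (h : Ctx0 k v n) (B : LF k v r D) {E : IntermediateField k Ω} (hE : FracIs B.R E)
    (u : Fin r → 𝕂) (hu : GoodBasis B.Γ ∅ u) :
    PC p B.R (monos B) (mon (p := p) (fun i => B.χ (u i)) B.y) := by
  classical
  intro a ha
  obtain ⟨u', N, hu', hN, hNR, haN⟩ := TGL17.exists_level' h (isFr_of_LF B) B.rk hE {a}
    (by simpa using ha) ∅ (by simp)
  obtain ⟨F, hF⟩ := hN.fgen
  obtain ⟨c, hc, e⟩ := ALLZO.pexp_locv (p := p) hk v F N hF (fun f hf h0 h1 => hN.inv_mem hf h0 h1)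
    (fun f hf => ALLZO.ctx_residue h (hN.nonneg f hf)) hN.nonneg _ hN.mem hN.pos hN.gen a
    (haN a (Finset.mem_singleton_self a))
  have hp0 : (p : ℤ) ≠ 0 := by exact_mod_cast hp.out.ne_zero
  have hp1 : (0 : ℤ) < p := by exact_mod_cast hp.out.pos
  -- the change of the basis of `Γ`
  choose m hm using fun i => hu.gen (u' i) (hu'.mem i)
  -- for `α` the exponent of `χ (u j)`
  let z : (Fin r ⊕ Fin D → Fin p) → Fin r → ℤ := fun α j =>
    ∑ i, m i j * ((α (Sum.inl i) : ℕ) : ℤ)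
  let q : (Fin r ⊕ Fin D → Fin p) → Fin r → ℤ := fun α j => z α j / p
  let s : (Fin r ⊕ Fin D → Fin p) → (Fin r → Fin p) × (Fin D → Fin p) := fun α =>
    (fun j => ⟨(z α j % p).toNat, by
      have h1 := Int.emod_nonneg (z α j) hp0
      have h2 := Int.emod_lt_of_pos (z α j) hp1
      omega⟩, fun j => α (Sum.inr j))
  let x : (Fin r ⊕ Fin D → Fin p) → Ω := fun α => ∏ j, B.χ (u j) ^ q α j
  have hx : ∀ α, x α ∈ invS B.R (monos B) := fun α => by
    refine (invS B.R (monos B)).prod_mem fun j _ => ?_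
    have h1 : B.χ (u j) ^ q α j = B.χ ((q α j : 𝕂) * u j) :=
      ((isFr_of_LF B).mon.int_mul (hu.mem j) (q α j)).symm
    rw [h1]
    exact χ_mem_invS B (by rw [← zsmul_eq_mul]; exact B.Γ.zsmul_mem (hu.mem j) _)
  have hmon : ∀ α : Fin r ⊕ Fin D → Fin p,
      ALLh94.mon (Sum.elim (fun i => B.χ (u' i)) B.y) α =
        mon (p := p) (fun i => B.χ (u i)) B.y (s α) * x α ^ p := by
    intro α
    have h1 : ALLh94.mon (Sum.elim (fun i => B.χ (u' i)) B.y) α =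
        (∏ i, B.χ (u' i) ^ (α (Sum.inl i) : ℕ)) * ∏ j, B.y j ^ (α (Sum.inr j) : ℕ) := by
      unfold ALLh94.mon
      rw [Fintype.prod_sum_type]
      rfl
    have h2 : ∀ i, B.χ (u' i) = ∏ j, B.χ (u j) ^ m i j := by
      intro i
      have h3 := (TGL17.chi_sum (isFr_of_LF B).toPre0 Finset.univ u hu.mem (m i)).2
      rw [← hm i] at h3
      exact h3
    have h3 : ∏ i, B.χ (u' i) ^ (α (Sum.inl i) : ℕ) = ∏ j, B.χ (u j) ^ z α j := by
      simp only [h2, ← Finset.prod_pow]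
      rw [Finset.prod_comm]
      refine Finset.prod_congr rfl fun j _ => ?_
      rw [← prod_zpow_sum (B.χ_ne _ (hu.mem j))]
      exact Finset.prod_congr rfl fun i _ => by rw [zpow_mul, zpow_natCast]
    have h4 : ∀ j, B.χ (u j) ^ z α j = B.χ (u j) ^ ((s α).1 j : ℕ) * (B.χ (u j) ^ q α j) ^ p := by
      intro j
      have h5 := Int.emod_nonneg (z α j) hp0
      have h6 : (((s α).1 j : ℕ) : ℤ) = z α j % p := Int.toNat_of_nonneg h5
      rw [← zpow_natCast, h6, ← zpow_natCast (B.χ (u j) ^ q α j) p, ← zpow_mul,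
        ← zpow_add₀ (B.χ_ne _ (hu.mem j))]
      congr 1
      change z α j = z α j % p + z α j / p * p
      rw [mul_comm]
      exact (Int.emod_add_mul_ediv _ _).symm
    rw [h1, h3]
    simp only [h4]
    rw [Finset.prod_mul_distrib, Finset.prod_pow]
    unfold mon
    ring
  refine ⟨fun μ => ∑ α with s α = μ, x α * c α, fun μ => ?_, ?_⟩
  · exact (invS B.R (monos B)).sum_mem fun α _ =>
      (invS B.R (monos B)).mul_mem (hx α) (le_invS (hNR (hc α)))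
  · rw [e]
    have h1 : ∀ μ, mon (p := p) (fun i => B.χ (u i)) B.y μ * (∑ α with s α = μ, x α * c α) ^ p =
        ∑ α with s α = μ, ALLh94.mon (Sum.elim (fun i => B.χ (u' i)) B.y) α * c α ^ p := by
      intro μ
      rw [sum_pow_char, Finset.mul_sum]
      refine Finset.sum_congr rfl fun α hα => ?_
      rw [Finset.mem_filter] at hα
      rw [hmon α, hα.2, mul_pow]
      ring
    simp only [h1]
    exact (Finset.sum_fiberwise _ _ _).symm

/-- ROW NR: the ring of a limit frame is normal. -/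
theorem nring (h : Ctx0 k v n) (B : LF k v r D) {E : IntermediateField k Ω} (hE : FracIs B.R E)
    (htr : Algebra.trdeg k E = ((r + D : ℕ))) : NRing v E B.R :=
  ⟨hE, B.nonneg, B.loc, fun _ hf hi => TGL17.normal h (isFr_of_LF B) B.rk hE htr rfl hf hi⟩

theorem nrm (h : Ctx0 k v n) (B : LF k v r D) {E : IntermediateField k Ω} (hE : FracIs B.R E)
    (htr : Algebra.trdeg k E = ((r + D : ℕ))) : Nrm B.R E := (nring h B hE htr).normal

end Pool.Agent.TGL66
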