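import Pool.Agent.Lib.TGL_h66.LFC

/-!
# TANK G, TRACK L: rows 3.1, 3.5: `p`-coordinates of the localised normalisation over a limit frame
-/

set_option autoImplicit false

open Polynomial IntermediateField

namespace Pool.Agent.TGL66

open Pool.Agent.TAO (OVal VPos Ctx0)
open Pool.Agent.ALLO (locv icl ICl decP)
open Pool.Agent.LU1 (FracIs fixO mem_fixO)
open Pool.Agent.TGL (LF mon)
open Pool.Agent.TGBh66 (invS mem_invS le_invS invS_mono PC Nrm isIntegral_mono DER PR int_clearS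
  le_ICl pcoord_disc pcoord_der isIntegral_of_mem inv_mem_invS)
open Pool.Agent.TGBh34 (isFr_of_LF)
open Pool.Agent.ALLZO (GoodBasis NRing)

universe u w

variable {k Ω : Type u} [Field k] [Field Ω] [Algebra k Ω]
  {𝕂 : Type w} [Field 𝕂] [LinearOrder 𝕂] [IsStrictOrderedRing 𝕂] {v : OVal 𝕂 Ω} {r D n : ℕ}

/-- Integral over `B.R[1/χ]`. -/
theorem int_iff (B : LF k v r D) {f : Ω} :
    IsIntegral (invS B.R (monos B)) f ↔ ∃ γ ∈ B.Γ, IsIntegral B.R (B.χ γ * f) := by
  constructor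
  · intro h
    obtain ⟨_, ⟨γ, hγ, h0, rfl⟩, -, hi⟩ := int_clearS h
    exact ⟨γ, hγ, hi⟩
  · rintro ⟨γ, hγ, hi⟩
    have h1 : f = B.χ (-γ) * (B.χ γ * f) := by rw [← mul_assoc, χ_neg_mul B hγ, one_mul]
    rw [h1]
    exact (isIntegral_of_mem (χ_mem_invS B (B.Γ.neg_mem hγ))).mul (isIntegral_mono le_invS hi)

variable {K E : IntermediateField k Ω}

/-- **`p`-coordinates of the localised normalisation in `K(θ)`** (for row 3.1). -/
theorem coord_disc {p : ℕ} [hp : Fact p.Prime] [CharP Ω p] [IsAlgClosed k] [IsAlgClosed Ω]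
    (h : Ctx0 k v n) (B : LF k v r D) (hK : FracIs B.R K)
    (htr : Algebra.trdeg k K = ((r + D : ℕ))) {θ : Ω} (hsep : IsSeparable K θ)
    (hE : (K⟮θ⟯).restrictScalars k = E) (hθ : ∃ γ ∈ B.Γ, IsIntegral B.R (B.χ γ * θ))
    (hd : ∀ θ' θ'' : Ω, aeval θ' (minpoly K θ) = 0 → aeval θ'' (minpoly K θ) = 0 → θ' ≠ θ'' →
      ∃ γ ∈ B.Γ, IsIntegral B.R (B.χ γ * (θ' - θ'')⁻¹)) :
    B.Coord p (ICl v B.R E) := by
  have hk : ∀ c : k, ∃ d : k, d ^ p = c := fun c => IsAlgClosed.exists_pow_nat_eq c hp.out.pos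
  have hKE : K ≤ E := by
    rw [← hE]
    intro x hx
    exact (K⟮θ⟯).algebraMap_mem ⟨x, hx⟩
  rw [coord_iff B (le_ICl fun f hf => hKE (hK.1 f hf))]
  intro u hu
  refine pcoord_disc p hK (nrm h B hK htr) (monos_ne B) hsep hE ((int_iff B).2 hθ)
    (fun θ' θ'' h1 h2 h3 => (int_iff B).2 (hd θ' θ'' h1 h2 h3)) (fun μ => le_invS ?_)
    (coordB hk h B hK u hu)
  exact mon_mem B hu.mem (fun i => (hu.pos i).le) μ

/-- **`p`-coordinates of the localised normalisation** (for row 3.5), from the stability of the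
integral closure of `k[z][1/w]` under the derivations `∂/∂z_j`. -/
theorem coord_der {p : ℕ} [hp : Fact p.Prime] [CharP Ω p] [IsAlgClosed k]
    (h : Ctx0 k v n) (B : LF k v r D) (hK : FracIs B.R K)
    (htr : Algebra.trdeg k K = ((r + D : ℕ))) {N : IntermediateField K Ω}
    [FiniteDimensional K N] [IsGalois K N] (hEN : ∀ e ∈ E, e ∈ N) (hKE : K ≤ E)
    {m : ℕ} {z : Fin m → Ω} (hz : AlgebraicIndependent k z) (hKz : FracIs (PR k z) K) {w : Ω}
    (hw0 : w ≠ 0) (hder : DER k z w E) (hzB : ∀ j, B.InX B.R (z j)) (hwB : B.InX B.R w⁻¹) :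
    B.Coord p (ICl v B.R E) := by
  have hk : ∀ c : k, ∃ d : k, d ^ p = c := fun c => IsAlgClosed.exists_pow_nat_eq c hp.out.pos
  rw [coord_iff B (le_ICl fun f hf => hKE (hK.1 f hf))]
  intro u hu
  refine pcoord_der p hk hz hKz hEN hKE hw0 hder hK (nrm h B hK htr) (monos_ne B) (monos_mem B)
    (fun j => (inX_iff B le_rfl).1 (hzB j)) ((inX_iff B le_rfl).1 hwB) (fun μ => ?_)
    (coordB hk h B hK u hu)
  exact hKE (hK.1 _ (mon_mem B hu.mem (fun i => (hu.pos i).le) μ))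

/-- The decomposition group gets smaller when the ring gets bigger. -/
theorem decP_anti {O R : Subalgebra k Ω} {N : IntermediateField K Ω} (hOK : ∀ f ∈ O, f ∈ K)
    (hOR : O ≤ R) : decP v R K N ≤ decP v O K N := by
  have hint : ∀ (σ : N ≃ₐ[K] N) (a : N), IsIntegral O (a : Ω) → IsIntegral O (σ a : Ω) := by
    rintro σ a ⟨P, hP, hPe⟩
    refine ⟨P, hP, ?_⟩
    let algOK : O →+* K :=
      { toFun := fun z => ⟨(z : Ω), hOK z z.2⟩
        map_one' := rfl
        map_mul' := fun _ _ => rfl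
        map_zero' := rfl
        map_add' := fun _ _ => rfl }
    have h1 : ∀ b : N, eval₂ (algebraMap O Ω) (b : Ω) P =
        ((aeval b (P.map algOK) : N) : Ω) := by
      intro b
      rw [aeval_def, eval₂_map]
      have h2 := hom_eval₂ P ((algebraMap K N).comp algOK) (algebraMap N Ω) b
      exact h2.symm
    have h2 : (aeval a (P.map algOK) : N) = 0 := by
      apply Subtype.val_injective (p := fun z => z ∈ N)
      rw [← h1]
      exact hPe
    have h3 : (aeval (σ a) (P.map algOK) : N) = 0 := by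
      have h4 := aeval_algHom_apply (σ : N →ₐ[K] N) a (P.map algOK)
      rw [h2, map_zero] at h4
      exact h4
    rw [h1, h3]
    rfl
  intro σ hσ a ha
  have h1 := hσ a (isIntegral_mono hOR ha)
  exact ⟨hint σ a ha, hint σ⁻¹ a ha, h1.2.2⟩

end Pool.Agent.TGL66
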